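import Pool.Agent.U115.WN.Stm

/-!
# Project WN, package LPT: the points of a lattice in a cube
-/

set_option autoImplicit false

open scoped Classical
open Matrix

namespace Pool.Agent.U44.WN

open Pool.Agent.U115.WM Pool.Agent.U115.WN

theorem t_LPT : S_LPT := by
  intro n k C₀ hC₀
  have hC0 : 0 ≤ C₀ := by linarith
  have p1 : 0 ≤ C₀ * n := by positivity
  have p2 : 0 ≤ 3 ^ k * √(C₀ * n) ^ k * √C₀ := by positivity
  refine ⟨1 + C₀ * n + 3 ^ k * √(C₀ * n) ^ k * √C₀, by linarith, ?_⟩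
  rintro B lam hB hlam ⟨V, hV, hVl, hVB⟩
  have hlam0 : 0 < lam := by linarith
  have key : ∀ x : Fin k → ℤ, (∀ l, |((B *ᵥ x) l : ℝ)| ≤ lam) → ∀ i,
      (x i : ℝ) ^ 2 * (N B i : ℝ) ≤ C₀ * n * lam ^ 2 := by
    intro x hx i
    have h := hB.quo (fun j => (x j : ℝ)) i
    refine h.trans ?_
    have h2 : ∀ l, (∑ j, (B l j : ℝ) * x j) ^ 2 ≤ lam ^ 2 := by
      intro l
      have e : (∑ j, (B l j : ℝ) * x j) = ((B *ᵥ x) l : ℝ) := by
        simp [Matrix.mulVec, dotProduct]
      rw [e]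
      exact sq_le_sq' (by linarith [(abs_le.1 (hx l)).1]) (abs_le.1 (hx l)).2
    calc C₀ * ∑ l, (∑ j, (B l j : ℝ) * x j) ^ 2 ≤ C₀ * ∑ _l : Fin n, lam ^ 2 :=
          mul_le_mul_of_nonneg_left (Finset.sum_le_sum fun l _ => h2 l) hC0
      _ = C₀ * n * lam ^ 2 := by
          rw [Finset.sum_const, Finset.card_univ, Fintype.card_fin, nsmul_eq_mul]
          ring
  choose X hX using hVB
  have hNpos : ∀ i, (1 : ℝ) ≤ N B i := fun i => by exact_mod_cast hB.pos i
  have hN : ∀ i, (N B i : ℝ) ≤ C₀ * n * lam ^ 2 := by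
    intro i
    have hrow : ∃ j, X j i ≠ 0 := by
      by_contra hcon
      push Not at hcon
      have hdet : (Matrix.of fun a b => X b a : Matrix (Fin k) (Fin k) ℤ).det = 0 :=
        Matrix.det_eq_zero_of_row_eq_zero i (fun j => hcon j)
      obtain ⟨c, hc0, hc⟩ := Matrix.exists_mulVec_eq_zero_iff.2 hdet
      apply hc0
      apply hV
      have hVX : V = B * (Matrix.of fun a b => X b a) := by
        ext l j
        have h1 := congrFun (hX j) l
        simp only [Matrix.mul_apply, Matrix.of_apply]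
        simpa [Matrix.mulVec, dotProduct] using h1.symm
      rw [hVX, ← Matrix.mulVec_mulVec, hc, Matrix.mulVec_zero]
    obtain ⟨j, hj⟩ := hrow
    have h1 := key (X j) (fun l => by
      have h2 : (B *ᵥ (X j)) l = V l j := congrFun (hX j) l
      rw [h2]
      exact hVl l j) i
    have h2 : (1 : ℝ) ≤ (X j i : ℝ) ^ 2 := by
      have h3 : (0 : ℤ) < (X j i) ^ 2 := by positivity
      exact_mod_cast h3
    have h3 := hNpos i
    nlinarith
  have hCn : 0 ≤ √(C₀ * n) * lam := by positivity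
  -- the box
  set R : Fin k → ℝ := fun i => √(C₀ * n) * lam / √(N B i : ℝ) with hR
  have hsN : ∀ i, 0 < √(N B i : ℝ) := fun i => Real.sqrt_pos.2 (by linarith [hNpos i])
  have hR1 : ∀ i, 1 ≤ R i := by
    intro i
    rw [hR]
    simp only
    rw [le_div_iff₀ (hsN i), one_mul]
    have h1 : √(N B i : ℝ) ≤ √(C₀ * n * lam ^ 2) := Real.sqrt_le_sqrt (hN i)
    rwa [Real.sqrt_mul p1, Real.sqrt_sq hlam0.le] at h1
  have hsub : {v : Fin n → ℤ | v ∈ lat B ∧ ∀ l, |(v l : ℝ)| ≤ lam} ⊆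
      (((Fintype.piFinset fun i => Finset.Icc (-⌊R i⌋) ⌊R i⌋).image
        (fun x : Fin k → ℤ => B *ᵥ x) : Finset (Fin n → ℤ)) : Set (Fin n → ℤ)) := by
    rintro v ⟨⟨x, rfl⟩, hx⟩
    rw [Finset.mem_coe, Finset.mem_image]
    refine ⟨x, ?_, rfl⟩
    rw [Fintype.mem_piFinset]
    intro i
    have h1 := key x hx i
    have h2 : |(x i : ℝ)| ≤ R i := by
      rw [hR]
      simp only
      rw [le_div_iff₀ (hsN i)]
      have h3 : √((x i : ℝ) ^ 2 * (N B i : ℝ)) ≤ √(C₀ * n * lam ^ 2) := Real.sqrt_le_sqrt h1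
      rwa [Real.sqrt_mul (sq_nonneg _), Real.sqrt_sq_eq_abs, Real.sqrt_mul p1,
        Real.sqrt_sq hlam0.le] at h3
    rw [Finset.mem_Icc]
    rw [abs_le] at h2
    constructor
    · rw [neg_le]
      apply Int.le_floor.2
      push_cast
      linarith [h2.1]
    · exact Int.le_floor.2 h2.2
  have hfin : {v : Fin n → ℤ | v ∈ lat B ∧ ∀ l, |(v l : ℝ)| ≤ lam}.Finite :=
    (Finset.finite_toSet _).subset hsub
  refine ⟨fun i => ?_, hfin, ?_⟩
  · have h1 := hN i
    have h2 : 0 ≤ lam ^ 2 := by positivity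
    nlinarith [mul_nonneg p2 h2]
  · have hcard : ({v : Fin n → ℤ | v ∈ lat B ∧ ∀ l, |(v l : ℝ)| ≤ lam}.ncard : ℝ) ≤
        ∏ i, (3 * R i) := by
      have h1 := Set.ncard_le_ncard hsub (Finset.finite_toSet _)
      rw [Set.ncard_coe_finset] at h1
      have h2 := h1.trans Finset.card_image_le
      rw [Fintype.card_piFinset] at h2
      have h3 : ((∏ i, (Finset.Icc (-⌊R i⌋) ⌊R i⌋).card : ℕ) : ℝ) ≤ ∏ i, (3 * R i) := by
        push_cast
        apply Finset.prod_le_prod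
        · intro i _
          positivity
        · intro i _
          rw [Int.card_Icc]
          have h4 : (1 : ℤ) ≤ ⌊R i⌋ := Int.le_floor.2 (by exact_mod_cast hR1 i)
          have h5 : (⌊R i⌋ : ℝ) ≤ R i := Int.floor_le _
          have h6 : (((⌊R i⌋ + 1 - -⌊R i⌋).toNat : ℕ) : ℝ) = 2 * (⌊R i⌋ : ℝ) + 1 := by
            have h7 : (((⌊R i⌋ + 1 - -⌊R i⌋).toNat : ℕ) : ℤ) = 2 * ⌊R i⌋ + 1 := by
              rw [Int.toNat_of_nonneg (by omega)]
              ring
            exact_mod_cast h7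
          rw [h6]
          have := hR1 i
          linarith
      exact le_trans (by exact_mod_cast h2) h3
    have hcov : cov B ≤ √C₀ * ∏ i, √(N B i : ℝ) := by
      unfold cov
      have h1 := Real.sqrt_le_sqrt hB.upp
      rw [Real.sqrt_mul hC0] at h1
      have h2 : √(∏ i, (N B i : ℝ)) = ∏ i, √(N B i : ℝ) := by
        rw [Real.sqrt_eq_rpow, ← Real.finsetProd_rpow]
        · exact Finset.prod_congr rfl fun i _ => (Real.sqrt_eq_rpow _).symm
        · intro i _
          linarith [hNpos i]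
      rw [h2] at h1
      exact h1
    have hcov0 : 0 ≤ cov B := Real.sqrt_nonneg _
    have hP : (0 : ℝ) < ∏ i, √(N B i : ℝ) := Finset.prod_pos fun i _ => hsN i
    have hRprod : ∏ i, (3 * R i) = 3 ^ k * √(C₀ * n) ^ k * lam ^ k / ∏ i, √(N B i : ℝ) := by
      rw [Finset.prod_mul_distrib, hR, Finset.prod_div_distrib, Finset.prod_const,
        Finset.prod_const, Finset.card_univ, Fintype.card_fin, mul_pow]
      ring
    have hRp0 : 0 ≤ ∏ i, (3 * R i) := Finset.prod_nonneg fun i _ => by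
      have := hR1 i
      linarith
    calc ({v : Fin n → ℤ | v ∈ lat B ∧ ∀ l, |(v l : ℝ)| ≤ lam}.ncard : ℝ) * cov B ≤
          (∏ i, (3 * R i)) * (√C₀ * ∏ i, √(N B i : ℝ)) :=
            mul_le_mul hcard hcov hcov0 hRp0
      _ = 3 ^ k * √(C₀ * n) ^ k * √C₀ * lam ^ k := by
          rw [hRprod]
          field_simp
      _ ≤ (1 + C₀ * n + 3 ^ k * √(C₀ * n) ^ k * √C₀) * lam ^ k := by
          apply mul_le_mul_of_nonneg_right _ (by positivity)
          linarith

end Pool.Agent.U44.WN
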